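import Mathlib
import Pool.Agent.H10.Eng.Op
import Pool.Agent.H86.Eng2.Weight

/-! Sandwiches in anticommutative 3-Engel algebras of characteristic 2 (MP_1664c7_al):
if `c` is a sandwich then `(x c)(y c)` is a thick sandwich. -/

set_option autoImplicit false

namespace Pool.Agent.H10.Eng2

open MulOpposite
open Pool.Agent.H10.Eng (Op r act act_mul act_add act_zero act_neg act_sub act_r add_act neg_act
  sub_act zero_act op_ext r_add r_neg r_zero r_sub)
open Pool.Agent.H86.Eng2 (E2 Thick2 thick2_of)

variable {A : Type*} [NonUnitalNonAssocRing A]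

section ops
variable (H : E2 A)
include H

theorem op_two (w : Op A) : w + w = 0 := by
  apply op_ext; intro u
  rw [act_add, act_zero, H.two]

theorem op_neg (w : Op A) : -w = w := by
  rw [neg_eq_iff_add_eq_zero]; exact op_two H w

theorem op_sub (v w : Op A) : v - w = v + w := by
  rw [sub_eq_add_neg, op_neg H]

theorem op_n2 (w : Op A) : (2 : ℕ) • w = 0 := by rw [two_nsmul]; exact op_two H w
theorem op_n3 (w : Op A) : (3 : ℕ) • w = w := by
  rw [show (3 : ℕ) = 2 + 1 from rfl, add_nsmul, op_n2 H, one_nsmul, zero_add]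
theorem op_n4 (w : Op A) : (4 : ℕ) • w = 0 := by
  rw [show (4 : ℕ) = 2 + 2 from rfl, add_nsmul, op_n2 H, add_zero]
theorem op_z2 (w : Op A) : (2 : ℤ) • w = 0 := by rw [two_zsmul]; exact op_two H w
theorem op_z3 (w : Op A) : (3 : ℤ) • w = w := by
  rw [show (3 : ℤ) = 2 + 1 from rfl, add_zsmul, op_z2 H, one_zsmul, zero_add]
theorem op_z4 (w : Op A) : (4 : ℤ) • w = 0 := by
  rw [show (4 : ℤ) = 2 + 2 from rfl, add_zsmul, op_z2 H, add_zero]

/-- normalisation lemmas in characteristic two -/
theorem opn : (∀ w : Op A, -w = w) ∧ (∀ v w : Op A, v - w = v + w) ∧ (∀ w : Op A, (2 : ℕ) • w = 0)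
    ∧ (∀ w : Op A, (3 : ℕ) • w = w) ∧ (∀ w : Op A, (4 : ℕ) • w = 0)
    ∧ (∀ w : Op A, (2 : ℤ) • w = 0) ∧ (∀ w : Op A, (3 : ℤ) • w = w)
    ∧ (∀ w : Op A, (4 : ℤ) • w = 0) ∧ (∀ w : Op A, w + w = 0) :=
  ⟨op_neg H, op_sub H, op_n2 H, op_n3 H, op_n4 H, op_z2 H, op_z3 H, op_z4 H, op_two H⟩

theorem op_eq {v w : Op A} (h : v + w = 0) : v = w := by
  rw [eq_neg_of_add_eq_zero_left h, op_neg H]

theorem sym (y z t : A) :
    r y * r z * r t + r y * r t * r z + r z * r y * r t + r z * r t * r y
      + r t * r y * r z + r t * r z * r y = 0 := by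
  apply op_ext; intro u
  simp only [act_add, act_mul, act_r, act_zero]
  exact H.full u y z t

theorem symp (a w : A) : r a * r a * r w + r a * r w * r a + r w * r a * r a = 0 := by
  apply op_ext; intro u
  simp only [act_add, act_mul, act_r, act_zero]
  exact H.lin u a w

theorem op2 (x y z : A) :
    r ((x * y) * z) + r ((x * z) * y) + r (x * y) * r z + r (x * z) * r y
      + r x * r y * r z + r x * r z * r y = 0 := by
  apply op_ext; intro u
  simp only [act_add, act_mul, act_r, act_zero]
  rw [← H.full x y z u, H.comm u (x * y * z), H.comm u (x * z * y), H.comm u (x * y),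
    H.comm u (x * z), H.comm u x]
  abel

theorem op2p (x y : A) : r ((x * y) * y) + r (x * y) * r y + r x * r y * r y = 0 := by
  apply op_ext; intro u
  simp only [act_add, act_mul, act_r, act_zero]
  rw [← H.lin x y u, H.comm u (x * y * y), H.comm u (x * y), H.comm u x]

end ops

/-- `c` is a sandwich: `(u c) c = 0` for all `u`. -/
structure Sw (c : A) : Prop extends E2 A where
  hc : ∀ u : A, (u * c) * c = 0

namespace Sw

variable {c : A} (S : Sw c)
include S

theorem cc : r c * r c = 0 := by
  apply op_ext; intro u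
  rw [act_mul, act_r, act_r, act_zero, S.hc]

theorem cxc (x : A) : r c * r x * r c = 0 := by
  have h := symp S.toE2 c x
  have hc := S.cc
  linear_combination (norm := noncomm_ring) h - hc * r x - r x * hc

theorem pc (x : A) : r (x * c) * r c = 0 := by
  have h := op2p S.toE2 x c
  have hc := S.cc
  rw [S.hc, r_zero] at h
  linear_combination (norm := noncomm_ring) h - r x * hc

theorem F (x z : A) : r ((x * c) * z) + r ((x * z) * c) + r (x * c) * r z
    + r (x * z) * r c + r x * r c * r z + r x * r z * r c = 0 := op2 S.toE2 x c z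

theorem F' (x z : A) : r ((x * c) * z) = r ((x * z) * c) + r (x * c) * r z
    + r (x * z) * r c + r x * r c * r z + r x * r z * r c := by
  apply op_eq S.toE2
  rw [← S.F x z]; abel

theorem FC (x z : A) : r ((x * c) * z) * r c = r (x * c) * r z * r c := by
  rw [S.F']
  have h1 := S.pc (x * z)
  have h2 := S.cc
  have h3 := S.cxc z
  linear_combination (norm := noncomm_ring) h1 + r (x * z) * h2 + r x * h3 + r x * r z * h2

/-- reversal -/
theorem rev (w z q : A) : act w (r (z * c) * r q * r c) = act z (r c * r q * r w * r c) := by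
  rw [← S.FC z q]
  simp only [act_mul, act_r]
  rw [S.comm w]

theorem csym (x y : A) : r c * r x * r y * r c + r c * r y * r x * r c = 0 := by
  have h := sym S.toE2 c x y
  have h1 := S.cc
  have h2 := S.cxc x
  have h3 := S.cxc y
  linear_combination (norm := noncomm_ring) r c * h - h1 * r x * r y - h1 * r y * r x
    - h2 * r y - h3 * r x

theorem csymp (x : A) : r c * r x * r x * r c = 0 := by
  have h := symp S.toE2 x c
  have h1 := S.cc
  have h2 := S.cxc x
  linear_combination (norm := noncomm_ring) r c * h - h1 * r x * r x - h2 * r x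

/-- (T1) -/
theorem t1 (x y : A) : r c * r x * r (y * c) + r c * r (y * c) * r x + r x * r c * r (y * c)
    + r (y * c) * r x * r c = 0 := by
  have h := sym S.toE2 c x (y * c)
  have h1 := S.pc y
  linear_combination (norm := noncomm_ring) h - r x * h1 - h1 * r x

theorem e1 (x y : A) : r c * r (y * c) * r x * r c = 0 := by
  have h := S.t1 x y
  have h1 := S.cc
  have h2 := S.cxc x
  linear_combination (norm := noncomm_ring) r c * h - h1 * r x * r (y * c) - h1 * r (y * c) * r x
    - h2 * r (y * c)

theorem e1s (x a b : A) : r c * r (x * c) * r a * r b * r c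
    + r c * r (x * c) * r b * r a * r c = 0 := by
  have h := sym S.toE2 c a b
  have h1 := S.pc x
  have h2 := S.e1 a x
  have h3 := S.e1 b x
  linear_combination (norm := noncomm_ring) r c * r (x * c) * h - r c * h1 * r a * r b
    - r c * h1 * r b * r a - h2 * r b - h3 * r a

theorem e1p (x a : A) : r c * r (x * c) * r a * r a * r c = 0 := by
  have h := symp S.toE2 a c
  have h1 := S.pc x
  have h2 := S.e1 a x
  linear_combination (norm := noncomm_ring) r c * r (x * c) * h - r c * h1 * r a * r a - h2 * r a

theorem kanti (y x : A) : act y (r c * r (x * c)) = act x (r c * r (y * c)) := by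
  simp only [act_mul, act_r]
  exact S.comm _ _

theorem g2 (a x b : A) : r c * r a * r (x * c) * r b * r c
    + r c * r (x * c) * r a * r b * r c = 0 := by
  have h := S.t1 a x
  have h1 := S.e1 b x
  have h2 := S.cxc b
  linear_combination (norm := noncomm_ring) h * r b * r c - r a * h1 - r (x * c) * r a * h2

theorem dform (u x : A) : r ((u * c) * (x * c)) + r (u * c) * r (x * c)
    + r (x * c) * r u * r c + r u * r c * r (x * c) = 0 := by
  have h := S.F u (x * c)
  have h1 : (u * (x * c)) * c = 0 := by
    have := congrArg (act u) (S.pc x)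
    rwa [act_mul, act_r, act_r, act_zero] at this
  have h2 : r (u * (x * c)) * r c = r (x * c) * r u * r c := by
    rw [S.comm u, S.FC]
  have h3 := S.pc x
  rw [h1, r_zero] at h
  linear_combination (norm := noncomm_ring) h - h2 - r u * h3

theorem psq (y : A) : r (y * c) * r (y * c) + r (y * c) * r y * r c + r y * r c * r (y * c) = 0 := by
  have h := S.dform y y
  rw [S.sq, r_zero, zero_add] at h
  exact h

theorem dc (u x : A) : r ((u * c) * (x * c)) * r c = 0 := by
  apply op_ext; intro w
  have h := congrArg (act u) (S.e1 w x)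
  simp only [act_mul, act_r, act_zero] at h ⊢
  rw [S.comm w, h]

theorem dzc (u x z : A) : r ((u * c) * (x * c)) * r z * r c = r (u * c) * r (x * c) * r z * r c := by
  apply op_eq S.toE2
  have h1 := S.cxc z
  have h2 := S.e1 z x
  linear_combination (norm := noncomm_ring) S.dform u x * r z * r c - r (x * c) * r u * h1
    - r u * h2

theorem duv (w u x z : A) : act w (r (u * c) * r (x * c) * r z * r c)
    = act u (r c * r (x * c) * r w * r z * r c) := by
  rw [← S.dzc]
  simp only [act_mul, act_r]
  rw [S.comm w]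

theorem pxe (z x y : A) : r (z * c) * r x * r c * r (y * c)
    + r (z * c) * r (y * c) * r x * r c = 0 := by
  have h := S.t1 x y
  have h2 := S.pc z
  linear_combination (norm := noncomm_ring) r (z * c) * h - h2 * r x * r (y * c)
    - h2 * r (y * c) * r x

theorem cxwe (x w y : A) : r c * r x * r w * r c * r (y * c)
    + r c * r (y * c) * r x * r w * r c = 0 := by
  apply op_ext; intro z
  have h := S.rev w z x
  have h1 := congrArg (act w) (S.pxe z x y)
  have h2 := S.duv w z y x
  have h3 := congrArg (act z) (S.e1s y w x)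
  rw [act_add, act_zero] at h1 h3 ⊢
  rw [act_mul w (r (z * c) * r x * r c), h, ← act_mul, h2] at h1
  rw [S.eq_of h3] at h1
  exact h1

theorem ep (y z : A) : r c * r (y * c) * r (z * c) + r c * r (z * c) * r (y * c) = 0 := by
  have h := sym S.toE2 c (y * c) (z * c)
  have h1 := S.pc y
  have h2 := S.pc z
  linear_combination (norm := noncomm_ring) h - h1 * r (z * c) - h2 * r (y * c)
    - r (y * c) * h2 - r (z * c) * h1

theorem epp (y : A) : r c * r (y * c) * r (y * c) = 0 := by
  have h := symp S.toE2 (y * c) c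
  have h1 := S.pc y
  linear_combination (norm := noncomm_ring) h - r (y * c) * h1 - h1 * r (y * c)

theorem pp (u x : A) : r (u * c) * r (x * c) + r (x * c) * r (u * c) + r (x * c) * r u * r c
    + r u * r c * r (x * c) + r (u * c) * r x * r c + r x * r c * r (u * c) = 0 := by
  have h1 := S.dform u x
  have h2 := S.dform x u
  rw [S.comm (x * c) (u * c)] at h2
  have h3 := op_two S.toE2 (r ((u * c) * (x * c)))
  linear_combination (norm := noncomm_ring) h1 + h2 - h3

theorem rfy (f y : A) (hf : f * c = 0) :
    r (f * (y * c)) + r (y * c) * r f + r c * r f * r y + r c * r y * r f = 0 := by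
  have h2 := S.F y f
  have h4 := op2 S.toE2 f c y
  rw [hf, zero_mul, r_zero, zero_mul] at h4
  have h6 := sym S.toE2 f y c
  rw [S.comm (y * c) f, S.comm y f] at h2
  linear_combination (norm := ((try simp only [opn S.toE2, mul_add, add_mul, mul_assoc,
      mul_zero, zero_mul, add_zero, zero_add]); (try abel_nf); (try simp only [opn S.toE2,
      add_zero, zero_add]))) h2 + h4 + h6

/-- zero words -/
theorem zw : (r c * r c = 0) ∧ (∀ w : Op A, r c * (r c * w) = 0)
    ∧ (∀ x : A, r c * (r x * r c) = 0) ∧ (∀ (x : A) (w : Op A), r c * (r x * (r c * w)) = 0)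
    ∧ (∀ x : A, r (x * c) * r c = 0) ∧ (∀ (x : A) (w : Op A), r (x * c) * (r c * w) = 0)
    ∧ (∀ x y : A, r c * (r (y * c) * (r x * r c)) = 0)
    ∧ (∀ (x y : A) (w : Op A), r c * (r (y * c) * (r x * (r c * w))) = 0)
    ∧ (∀ u x : A, r ((u * c) * (x * c)) * r c = 0)
    ∧ (∀ (u x : A) (w : Op A), r ((u * c) * (x * c)) * (r c * w) = 0) := by
  refine ⟨S.cc, fun w => ?_, fun x => ?_, fun x w => ?_, S.pc, fun x w => ?_, fun x y => ?_,
    fun x y w => ?_, S.dc, fun u x w => ?_⟩
  · rw [← mul_assoc, S.cc, zero_mul]
  · rw [← mul_assoc, S.cxc]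
  · rw [← mul_assoc, ← mul_assoc, S.cxc, zero_mul]
  · rw [← mul_assoc, S.pc, zero_mul]
  · rw [← mul_assoc, ← mul_assoc, S.e1]
  · rw [← mul_assoc, ← mul_assoc, ← mul_assoc, S.e1, zero_mul]
  · rw [← mul_assoc, S.dc, zero_mul]

/-- operator of `((z c)(y c)) v` -/
theorem rdv (z y v : A) : r (((z * c) * (y * c)) * v) + r (y * c) * r ((z * c) * v)
    + r c * r ((z * c) * v) * r y + r c * r y * r ((z * c) * v) + r ((z * c) * v) * r (y * c)
    + r ((z * c) * (y * c)) * r v + r (z * c) * r v * r (y * c)
    + r (z * c) * r (y * c) * r v = 0 := by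
  have hf : ((z * c) * v) * c = 0 := by
    have := congrArg (act z) (S.cxc v)
    simpa only [act_mul, act_r, act_zero] using this
  have h1 := S.rfy ((z * c) * v) y hf
  have h2 := op2 S.toE2 (z * c) v (y * c)
  linear_combination (norm := ((try simp only [opn S.toE2, S.zw, mul_add, add_mul, mul_assoc,
      mul_zero, zero_mul, add_zero, zero_add]); (try abel_nf); (try simp only [opn S.toE2, S.zw,
      add_zero, zero_add]))) h1 + h2

/-- `C * R((z c)(y c) v) = C P_y P_z V` -/
theorem crd (z y v : A) : r c * r (((z * c) * (y * c)) * v) +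
    r c * r (y * c) * r (z * c) * r v = 0 := by
  have a1 := S.ep y (z * v)
  have a2 := S.rdv z y v
  have a3 := S.F z v
  have a4 := S.dform z y
  have a5 := S.cxwe z v y
  have a6 := S.cxc v
  linear_combination (norm := ((try simp only [opn S.toE2, S.zw, mul_add, add_mul, mul_assoc,
      mul_zero, zero_mul, add_zero, zero_add]); (try abel_nf); (try simp only [opn S.toE2, S.zw,
      add_zero, zero_add]))) r c * a2 + r c * r (y * c) * a3 + r c * a3 * r (y * c)
    + r c * a4 * r v + a1 + a5

/-- `(d w)(z c) = (d (z c)) w` in operator form -/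
theorem theta (y v x : A) : r c * r (y * c) * r v * r (x * c)
    = r c * r (y * c) * r (x * c) * r v := by
  apply op_ext; intro z
  have h := congrArg (act x) (S.crd z y v)
  have h1 := congrArg (act x) (S.ep y z)
  have h3 := congrArg (act z) (S.ep x y)
  simp only [act_mul, act_r, act_add, act_zero] at h h1 h3 ⊢
  -- h : (x c)(d v) + (((x c)(y c))(z c)) v = 0,  d = (z c)(y c)
  rw [S.comm (x * c) (z * c * (y * c) * v)] at h
  rw [S.eq_of h, S.eq_of h1, S.comm (x * c) (z * c), S.eq_of h3]

/-- `R_T = D P_z` for `T = ((x c)(y c))(z c)` -/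
theorem rT (x y z : A) : r (((x * c) * (y * c)) * (z * c)) = r ((x * c) * (y * c)) * r (z * c) := by
  apply op_ext; intro w
  have h := congrArg (act x) (S.theta y w z)
  simp only [act_mul, act_r] at h ⊢
  rw [S.comm w, S.comm w, h]

theorem Dxx (x y : A) : r ((x * c) * (y * c)) * r (y * c) = 0 := by
  rw [← S.rT]
  have h1 := congrArg (act x) (S.epp y)
  simp only [act_mul, act_r, act_zero] at h1
  rw [h1, r_zero]

theorem Dxy (x y : A) : r ((x * c) * (y * c)) * r (x * c) = 0 := by
  have h := S.Dxx y x
  rwa [S.comm (y * c) (x * c)] at h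

/-- `D Q C P_y = 0` -/
theorem DQCP (x y q : A) : r ((x * c) * (y * c)) * r q * r c * r (y * c) = 0 := by
  have h1 := S.Dxx x y
  have h2 := S.t1 q y
  have h3 := S.dc x y
  linear_combination (norm := noncomm_ring) r ((x * c) * (y * c)) * h2 - h3 * r q * r (y * c)
    - h3 * r (y * c) * r q - h1 * r q * r c

theorem DD (x y : A) : r ((x * c) * (y * c)) * r ((x * c) * (y * c)) = 0 := by
  have h1 := S.Dxx x y
  have h2 := S.Dxy x y
  have h3 := S.DQCP x y x
  have h4 := S.dform x y
  linear_combination (norm := noncomm_ring) r ((x * c) * (y * c)) * h4 - h2 * r (y * c)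
    - h1 * r x * r c - h3

/-- `D P_q P_y = 0` -/
theorem DPP (x y q : A) : r ((x * c) * (y * c)) * r (q * c) * r (y * c) = 0 := by
  have h1 := S.Dxx x y
  have h2 := S.DQCP x y q
  have h3 := S.pp q y
  have h4 := S.t1 y q
  have h5 := S.dc x y
  have h6 := op_two S.toE2 (r ((x * c) * (y * c)) * r (q * c) * r y * r c)
  have h7 := op_two S.toE2 (r ((x * c) * (y * c)) * r y * r c * r (q * c))
  linear_combination (norm := ((try simp only [opn S.toE2, S.zw, mul_add, add_mul, mul_assoc,
      mul_zero, zero_mul, add_zero, zero_add]); (try abel_nf); (try simp only [opn S.toE2, S.zw,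
      add_zero, zero_add]))) r ((x * c) * (y * c)) * h3 - h1 * r (q * c)
    - h1 * r q * r c - h2 - r ((x * c) * (y * c)) * h4

/-- `P_y X C P_y = 0` -/
theorem PXCP (x y : A) : r (y * c) * r x * r c * r (y * c) = 0 := by
  have h1 := S.pxe y x y
  have h2 := S.psq y
  linear_combination (norm := ((try simp only [opn S.toE2, S.zw, mul_add, add_mul, mul_assoc,
      mul_zero, zero_mul, add_zero, zero_add]); (try abel_nf); (try simp only [opn S.toE2, S.zw,
      add_zero, zero_add]))) h1 - h2 * r x * r c

/-- `D X P_y V C = 0` -/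
theorem DXPVC (x y v : A) : r ((x * c) * (y * c)) * r x * r (y * c) * r v * r c = 0 := by
  have a1 := S.dform x y
  have a2 := S.theta y x y
  have a3 := S.epp y
  have a4 := symp S.toE2 (y * c) x
  have a5 := S.psq y
  have a7 := S.pxe x y y
  have a8 := S.t1 x y
  have a9 := S.PXCP x y
  have a10 := symp S.toE2 x (y * c)
  linear_combination (norm := ((try simp only [opn S.toE2, S.zw, mul_add, add_mul, mul_assoc,
      mul_zero, zero_mul, add_zero, zero_add]); (try abel_nf); (try simp only [opn S.toE2, S.zw,
      add_zero, zero_add])))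
    a1 * r x * r (y * c) * r v * r c + r x * a2 * r v * r c + r x * a3 * r x * r v * r c
    + r (x * c) * a4 * r v * r c + r (x * c) * a5 * r x * r v * r c
    + r (x * c) * r x * a5 * r v * r c + a7 * r x * r v * r c
    + r (y * c) * r x * a8 * r v * r c + a9 * r x * r v * r c
    + a10 * r c * r (y * c) * r v * r c + r x * a9 * r v * r c

theorem Ddv (x y v : A) : r ((x * c) * (y * c)) * r (((x * c) * (y * c)) * v) = 0 := by
  have h := S.rdv x y v
  have hF := S.F x v
  have a1 := S.Dxx x y
  have a2 := S.Dxy x y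
  have a3 := S.DD x y
  have a4 := S.DPP x y (x * v)
  have a5 := S.DQCP x y (x * v)
  have a6 := S.t1 v y
  have a7 := S.DQCP x y x
  have a8 := S.DXPVC x y v
  linear_combination (norm := ((try simp only [opn S.toE2, S.zw, mul_add, add_mul, mul_assoc,
      mul_zero, zero_mul, add_zero, zero_add]); (try abel_nf); (try simp only [opn S.toE2, S.zw,
      add_zero, zero_add])))
    r ((x * c) * (y * c)) * h + a1 * r ((x * c) * v) + a3 * r v + a2 * r v * r (y * c)
    + a2 * r (y * c) * r v + r ((x * c) * (y * c)) * hF * r (y * c) + a4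
    + a2 * r v * r (y * c) + a5 + r ((x * c) * (y * c)) * r x * a6 + a7 * r v + a8

end Sw

/-- Target (I) in characteristic two: for a sandwich `c` all elements `(x c)(y c)` are thick
sandwiches. -/
theorem target_I2 (H : E2 A) (c : A) (hc : ∀ u : A, (u * c) * c = 0) (x y : A) :
    Thick2 ((x * c) * (y * c)) := by
  have S : Sw c := ⟨H, hc⟩
  refine thick2_of H (fun u => ?_) (fun u v => ?_)
  · have := congrArg (act u) (S.DD x y)
    simpa only [act_mul, act_r, act_zero] using this
  · have := congrArg (act u) (S.Ddv x y v)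
    simp only [act_mul, act_r, act_zero] at this
    rw [H.comm v, this]

end Pool.Agent.H10.Eng2
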